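import Pool.Agent.Run7.h242.SC.Iface

/-!
# Piece FK of project SC (MP_a6162f_an): lift of the glued map to dimension `m + 3`
-/

set_option autoImplicit false

namespace Run7.h984.SC

open MeasureTheory Set Filter Topology Metric
open scoped ContDiff ENNReal NNReal
open Run7.h242.SC

theorem V_pos (k : ℕ) : 0 < V k := by
  unfold V; positivity

theorem V_le (k : ℕ) : V k ≤ 1 / 32 := by
  unfold V
  have : ((1 : ℝ) / 2) ^ k ≤ 1 := pow_le_one₀ (by norm_num) (by norm_num)
  linarith

theorem isLinearMap_pr {m : ℕ} : IsLinearMap ℝ (pr : E (m + 3) → ℂ × ℝ) := by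
  constructor
  · intro x y
    refine Prod.ext ?_ ?_
    · exact Complex.ext (by simp [pr]) (by simp [pr])
    · simp [pr]
  · intro c x
    refine Prod.ext ?_ ?_
    · exact Complex.ext (by simp [pr]) (by simp [pr])
    · simp [pr]

theorem t_FK (hPSI : S_PSI) (hFKX : S_FKX) (hFKL : S_FKL) (hFKB : S_FKB) (hGAMB : S_GAMB)
    (hTOP : S_TOP) : S_FK := by
  intro m
  obtain ⟨C0, hψ⟩ := hPSI
  obtain ⟨C', hC'⟩ := hFKL C0
  refine ⟨2 * C' + 1, ?_⟩
  intro k hk
  obtain ⟨ψ, hgood⟩ := hψ k hk
  obtain ⟨g, hg⟩ := hFKX hGAMB C0 k ψ hk hgood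
  obtain ⟨hinj, himg⟩ := hFKB C0 k ψ g hk hgood hg
  have hlip := hC' k ψ g hk hgood hg
  obtain ⟨hopen, -, -, -⟩ := hTOP m
  have hL : ∀ x r, ball x r ⊆ Om m →
      LipschitzOnWith (2 * C' + 1) (fun x : E (m + 3) => wi x (g (pr x))) (ball x r) := by
    intro x r hb
    have hconv : Convex ℝ (pr '' ball x r) := (convex_ball x r).is_linear_image isLinearMap_pr
    have hsub : pr '' ball x r ⊆ Om3 := by
      rintro _ ⟨y, hy, rfl⟩
      exact (hb hy).2
    have hl := hlip (pr '' ball x r) hconv hsub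
    refine LipschitzOnWith.of_dist_le_mul ?_
    intro y hy z hz
    have h1 := hl.dist_le_mul (pr y) (mem_image_of_mem _ hy) (pr z) (mem_image_of_mem _ hz)
    rw [dist_eq_norm, dist_eq_norm] at h1 ⊢
    have h2 := norm_wi_sub_le y z (g (pr y)) (g (pr z))
    have h3 := norm_pr_sub_le y z
    have h4 : (C' : ℝ) * ‖pr y - pr z‖ ≤ C' * ‖y - z‖ :=
      mul_le_mul_of_nonneg_left h3 C'.2
    push_cast
    linarith
  refine ⟨fun x => wi x (g (pr x)), ?_, ?_, ?_, hL, ?_⟩
  · intro x hx
    obtain ⟨r, hr, hb⟩ := Metric.isOpen_iff.1 hopen x hx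
    exact ((hL x r hb).continuousOn.continuousAt (ball_mem_nhds x hr)).continuousWithinAt
  · intro x hx y hy hxy
    have hxy' : wi x (g (pr x)) = wi y (g (pr y)) := hxy
    have h1 : g (pr x) = g (pr y) := by
      have := congrArg pr hxy'
      simpa using this
    have h2 : pr x = pr y := hinj hx.2 hy.2 h1
    have h3 : ∀ i : Fin (m + 3), 3 ≤ (i : ℕ) → x i = y i := by
      intro i hi
      have := congrArg (fun z : E (m + 3) => z i) hxy'
      simpa only [wi_ge _ _ hi] using this
    have h4 := wi_pr x y h3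
    have h5 := wi_pr x x (fun _ _ => rfl)
    rw [← h4, ← h2, h5]
  · apply Subset.antisymm
    · rintro _ ⟨x, hx, rfl⟩
      refine ⟨pas_wi hx.1 _, ?_⟩
      show pr (wi x (g (pr x))) ∈ Om3'
      rw [pr_wi, ← himg]
      exact mem_image_of_mem g hx.2
    · intro y hy
      have hy2 : pr y ∈ g '' Om3 := by
        rw [himg]; exact hy.2
      obtain ⟨w, hw, hwy⟩ := hy2
      refine ⟨wi y w, ⟨pas_wi hy.1 _, ?_⟩, ?_⟩
      · rw [pr_wi]; exact hw
      · show wi (wi y w) (g (pr (wi y w))) = y
        rw [pr_wi, hwy]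
        exact wi_pr (wi y w) y (fun i hi => wi_ge y w hi)
  · intro x hx
    obtain ⟨hxO, hx2, hx0⟩ := hx
    refine ⟨?_, fun i hi => wi_ge x _ hi⟩
    show ‖pr (wi x (g (pr x)))‖ ≤ _
    rw [pr_wi]
    have hmem := hxO.2
    rcases hmem with hM | hT
    · exact absurd hM.2.2 (by simp; linarith)
    · obtain ⟨i, hi⟩ := mem_iUnion.1 hT
      obtain ⟨p, hp, hpx⟩ := hi
      have hre : |p.1.re| < 1 := hp.1
      have him : |p.1.im| < 1 := hp.2.1
      have hre' := abs_lt.1 hre
      have h2 : p.2 = x 2 := by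
        have := congrArg Prod.snd hpx
        simpa [Sig] using this
      have h0 : (Q i + (V i : ℂ) * p.1).re = x 0 := by
        have := congrArg (fun z : ℂ × ℝ => z.1.re) hpx
        simpa [Sig] using this
      have hi0 : i = 0 := by
        by_contra hne
        have hQ : Q i = q i := by simp [Q, hne]
        rw [hQ] at h0
        have h5 : (q i + (V i : ℂ) * p.1).re = (1 / 2 : ℝ) ^ i + V i * p.1.re := by
          simp only [q, Complex.add_re, Complex.ofReal_re, Complex.mul_re, Complex.ofReal_im,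
            zero_mul, sub_zero]
        rw [h5] at h0
        have h6 : 0 < (1 / 2 : ℝ) ^ i := by positivity
        have h7 : V i = (1 / 2 : ℝ) ^ i / 32 := rfl
        have h8 := V_pos i
        have h9 : -V i ≤ V i * p.1.re := by nlinarith
        linarith
      subst hi0
      have h3 := hg.2 0 p hp (by rw [h2]; exact hx2.le)
      rw [← hpx, h3]
      have hsg : sg k 0 = k := by simp [sg]
      rw [hsg]
      have hep : ep 0 = -1 := by simp [ep]
      rw [hep]
      have hb := hGAMB (V k) (V_pos k) (V_le k) (q k) (-1 * p.1, p.2)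
        (by simpa using hre.le) (by simpa using him.le) (hp.2.2.2.1.le)
      obtain ⟨-, -, hb3, -, -⟩ := hb
      obtain ⟨e1, e2, e3⟩ := hb3 (by rw [show ((-1 * p.1, p.2) : ℂ × ℝ).2 = p.2 from rfl, h2]; exact hx2.le)
      have hqk : ‖q k‖ = (1 / 2 : ℝ) ^ k := by
        rw [q, Complex.norm_real, Real.norm_of_nonneg (by positivity)]
      have hVk : V k = (1 / 2 : ℝ) ^ k / 32 := rfl
      have hpos : 0 < (1 / 2 : ℝ) ^ k := by positivity
      rw [Prod.norm_def]
      refine max_le ?_ ?_
      · have h10 : ‖(Gam (V k) (q k) (-1 * p.1, p.2)).1‖ ≤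
            ‖(Gam (V k) (q k) (-1 * p.1, p.2)).1 - q k‖ + ‖q k‖ := by
          have := norm_add_le ((Gam (V k) (q k) (-1 * p.1, p.2)).1 - q k) (q k)
          simpa using this
        rw [hqk] at h10
        linarith
      · rw [Real.norm_of_nonneg e2]
        linarith

end Run7.h984.SC
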