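import Pool.Agent.Run7.h242.SC.Iface

/-!
# Piece GAMC of project SC (MP_a6162f_an): continuous inverse of a coiled tube
-/

set_option autoImplicit false

namespace Run7.h984.SC

open MeasureTheory Set Filter Topology Metric
open scoped ContDiff ENNReal NNReal
open Run7.h242.SC

theorem continuous_tt (v : ℝ) : Continuous (tt v) := by
  unfold tt; fun_prop

theorem continuous_cc (v : ℝ) : Continuous (cc v) := by
  unfold cc; fun_prop

theorem continuous_mk {X : Type*} [TopologicalSpace X] {a b : X → ℝ} (ha : Continuous a)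
    (hb : Continuous b) : Continuous (fun x => (⟨a x, b x⟩ : ℂ)) := by
  have : (fun x => (⟨a x, b x⟩ : ℂ)) = fun x => (a x : ℂ) + (b x : ℂ) * Complex.I := by
    funext x
    exact Complex.ext (by simp) (by simp)
  rw [this]
  fun_prop

theorem continuous_Gam (v : ℝ) (c0 : ℂ) : Continuous (Gam v c0) := by
  have h1 : Continuous fun p : ℂ × ℝ => cc v p.2 := (continuous_cc v).comp continuous_snd
  have h2 : Continuous fun p : ℂ × ℝ => tt v p.2 := (continuous_tt v).comp continuous_snd
  have h3 : Continuous fun p : ℂ × ℝ => p.1.re := Complex.continuous_re.comp continuous_fst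
  have h4 : Continuous fun p : ℂ × ℝ => p.1.im := Complex.continuous_im.comp continuous_fst
  have h5 : Continuous fun p : ℂ × ℝ => tt v p.2 / v := h2.div_const v
  unfold Gam
  refine Continuous.prodMk ?_ ?_
  · refine continuous_const.add (continuous_mk ?_ ?_)
    · exact continuous_const.add ((continuous_const.add (h1.mul h3)).mul
        (Real.continuous_cos.comp h5))
    · exact (h1.mul h4).add (continuous_const.mul h2)
  · exact (continuous_snd.min continuous_const).add ((continuous_const.add (h1.mul h3)).mul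
      (Real.continuous_sin.comp h5))

theorem isCompact_Cube : IsCompact Cube := by
  apply Metric.isCompact_of_isClosed_isBounded
  · have h3 : Continuous fun p : ℂ × ℝ => |p.1.re| :=
      (Complex.continuous_re.comp continuous_fst).abs
    have h4 : Continuous fun p : ℂ × ℝ => |p.1.im| :=
      (Complex.continuous_im.comp continuous_fst).abs
    exact (isClosed_le h3 continuous_const).inter ((isClosed_le h4 continuous_const).inter
      ((isClosed_le continuous_const continuous_snd).inter
        (isClosed_le continuous_snd continuous_const)))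
  · refine (Metric.isBounded_closedBall (x := (0 : ℂ × ℝ)) (r := 2)).subset ?_
    intro p hp
    obtain ⟨h1, h2, h3, h4⟩ := hp
    rw [mem_closedBall_zero_iff, Prod.norm_def]
    refine max_le ?_ ?_
    · have := Complex.norm_le_abs_re_add_abs_im p.1
      linarith
    · rw [Real.norm_eq_abs, abs_le]
      constructor <;> linarith

theorem injOn_Gam_Cube (hGAMI : S_GAMI) (hGAMB : S_GAMB) {v : ℝ} (hv : 0 < v)
    (hv' : v ≤ 1 / 32) (c0 : ℂ) : InjOn (Gam v c0) Cube := by
  intro p hp p' hp' h
  obtain ⟨a1, a2, -, a4⟩ := id hp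
  obtain ⟨b1, b2, -, b4⟩ := id hp'
  obtain ⟨c1, -, c3, -, -⟩ := hGAMB v hv hv' c0 p a1 a2 a4
  obtain ⟨d1, -, d3, -, -⟩ := hGAMB v hv hv' c0 p' b1 b2 b4
  rcases lt_or_ge p.2 0 with hn | hn
  · have e1 := c1 hn.le
    rcases lt_or_ge p'.2 0 with hn' | hn'
    · have e2 := d1 hn'.le
      rw [e1, e2] at h
      have h1 := congrArg Prod.fst h
      have h2 := congrArg Prod.snd h
      simp only at h1 h2
      refine Prod.ext ?_ h2
      have h3 := add_left_cancel h1
      exact mul_left_cancel₀ (Complex.ofReal_ne_zero.2 hv.ne') h3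
    · have e2 := (d3 hn').2.1
      rw [← h, e1] at e2
      simp only at e2
      linarith
  · rcases lt_or_ge p'.2 0 with hn' | hn'
    · have e1 := d1 hn'.le
      have e2 := (c3 hn).2.1
      rw [h, e1] at e2
      simp only at e2
      linarith
    · exact hGAMI v hv hv' c0 ⟨a1, a2, hn, a4⟩ ⟨b1, b2, hn', b4⟩ h

theorem t_GAMC (_hGAML : S_GAML) (hGAMI : S_GAMI) (hGAMB : S_GAMB) : S_GAMC := by
  intro v hv hv' c0
  have hc : ContinuousOn (Gam v c0) Cube := (continuous_Gam v c0).continuousOn
  have hinj := injOn_Gam_Cube hGAMI hGAMB hv hv' c0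
  refine ⟨hc, Function.invFunOn (Gam v c0) Cube, ?_, ?_⟩
  · rw [continuousOn_iff_isClosed]
    intro t ht
    refine ⟨Gam v c0 '' (Cube ∩ t), ?_, ?_⟩
    · exact ((isCompact_Cube.inter_right ht).image (continuous_Gam v c0)).isClosed
    · ext w
      constructor
      · rintro ⟨h1, p, hp, rfl⟩
        have h2 : Function.invFunOn (Gam v c0) Cube (Gam v c0 p) = p :=
          hinj.leftInvOn_invFunOn hp
        rw [mem_preimage, h2] at h1
        exact ⟨⟨p, ⟨hp, h1⟩, rfl⟩, mem_image_of_mem _ hp⟩
      · rintro ⟨⟨p, ⟨hp, hpt⟩, rfl⟩, -⟩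
        refine ⟨?_, mem_image_of_mem _ hp⟩
        rw [mem_preimage, hinj.leftInvOn_invFunOn hp]
        exact hpt
  · intro p hp
    exact hinj.leftInvOn_invFunOn hp

end Run7.h984.SC
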